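import Mathlib

namespace Pool.Agent.Results.MP_7d0545_co.Lines
open Set Pointwise

abbrev E (n : ℕ) := Fin n → ℝ

noncomputable def dim {n : ℕ} (s : Set (E n)) : ℕ := Module.finrank ℝ (vectorSpan ℝ s)

/-- A nonempty polyhedron with integer normal vectors. -/
def Poly {n : ℕ} (s : Set (E n)) : Prop :=
  s.Nonempty ∧ ∃ (m : ℕ) (a : Fin m → Fin n → ℤ) (b : Fin m → ℝ),
    s = {x | ∀ i, ∑ j, (a i j : ℝ) * x j ≤ b i}

/-- `u` is a primitive integer normal vector of `τ` pointing into `σ`. -/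
def PrimNormal {n : ℕ} (τ σ : Set (E n)) (u : Fin n → ℤ) : Prop :=
  (fun j => (u j : ℝ)) ∈ vectorSpan ℝ σ ∧
  (∀ v : Fin n → ℤ, (fun j => (v j : ℝ)) ∈ vectorSpan ℝ σ →
    ∃ c : ℤ, (fun j => ((v j - c * u j : ℤ) : ℝ)) ∈ vectorSpan ℝ τ) ∧
  ∃ x ∈ τ, ∃ y ∈ σ, ∃ ε > (0 : ℝ), (y - x - ε • fun j => (u j : ℝ)) ∈ vectorSpan ℝ τ

open Classical in
/-- A balanced polyhedral complex of pure dimension `d`. -/
structure Balanced (n : ℕ) where
  cells : Finset (Set (E n))
  d : ℕ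
  w : Set (E n) → ℕ
  poly : ∀ σ ∈ cells, Poly σ
  face : ∀ σ ∈ cells, ∀ τ, τ.Nonempty → IsExposed ℝ σ τ → τ ∈ cells
  inter : ∀ σ ∈ cells, ∀ τ ∈ cells, IsExposed ℝ σ (σ ∩ τ)
  pure : ∀ τ ∈ cells, ∃ σ ∈ cells, τ ⊆ σ ∧ dim σ = d
  le : ∀ σ ∈ cells, dim σ ≤ d
  pos : ∀ σ ∈ cells, dim σ = d → 0 < w σ
  bal : ∀ τ ∈ cells, dim τ + 1 = d → ∃ u : Set (E n) → Fin n → ℤ,
    (∀ σ ∈ cells, dim σ = d → τ ⊆ σ → PrimNormal τ σ (u σ)) ∧
    (∑ σ ∈ cells.filter fun σ => dim σ = d ∧ τ ⊆ σ, fun j => (w σ * u σ j : ℝ)) ∈ vectorSpan ℝ τ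

def supp {n : ℕ} (S : Balanced n) : Set (E n) := ⋃ σ ∈ S.cells, σ

/-- The support of the stable intersection. -/
def stable {n : ℕ} (S T : Balanced n) : Set (E n) :=
  {x | ∃ σ ∈ S.cells, ∃ τ ∈ T.cells, dim (σ + τ) = n ∧ x ∈ σ ∩ τ}

lemma vs {n : ℕ} (p : E n) (K : Submodule ℝ (E n)) (s : Set (E n)) (h : ∀ x, x ∈ s ↔ x - p ∈ K) :
    dim s = Module.finrank ℝ K := by
  have : s = AffineSubspace.mk' p K := Set.ext fun x => (h x).trans (AffineSubspace.mem_mk' (p := p) (q := x)).symm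
  rw [dim, this, ← AffineSubspace.direction_eq_vectorSpan, AffineSubspace.direction_mk']

lemma face {n : ℕ} {σ τ : Set (E n)} (h : ∀ x ∈ σ, ∀ y ∈ σ, x + x - y ∈ σ) (h1 : τ.Nonempty)
    (h2 : IsExposed ℝ σ τ) : τ = σ := by
  obtain ⟨l, rfl⟩ := h2 h1
  obtain ⟨x, hx, h3⟩ := h1
  refine Subset.antisymm (sep_subset _ _) fun y hy => ⟨hy, fun z hz => (h3 z hz).trans ?_⟩
  have := h3 _ (h x hx y hy)
  rw [map_sub, map_add] at this
  linarith

def L1 : Set (E 3) := {x | x 0 = 0 ∧ x 1 = 1}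
def L2 : Set (E 3) := {x | x 1 = 0 ∧ x 2 = 0}
def P : Set (E 3) := {x | x 2 = 0}

lemma d1 : dim L1 = 1 := by
  rw [vs ![0, 1, 0] (Submodule.span ℝ {![0, 0, 1]}) L1 fun x => ?_, finrank_span_singleton (by simp)]
  simp only [L1, mem_ofPred_eq, Submodule.mem_span_singleton, funext_iff, Fin.forall_fin_succ]
  simp [eq_comm, eq_sub_iff_add_eq]

lemma d2 : dim L2 = 1 := by
  rw [vs 0 (Submodule.span ℝ {![1, 0, 0]}) L2 fun x => ?_, finrank_span_singleton (by simp)]
  simp only [L2, mem_ofPred_eq, Submodule.mem_span_singleton, funext_iff, Fin.forall_fin_succ]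
  simp [eq_comm]

lemma d3 : dim P = 2 := by
  rw [vs 0 (LinearMap.ker (LinearMap.proj (R := ℝ) (φ := fun _ : Fin 3 => ℝ) 2)) P fun x => by
    simp [P]]
  have := Module.Dual.finrank_ker_add_one_of_ne_zero
    (f := LinearMap.proj (R := ℝ) (φ := fun _ : Fin 3 => ℝ) 2)
    fun h => by simpa using congrArg (· 1) h
  simpa using this

lemma dis : L1 ∩ L2 = ∅ := eq_empty_of_forall_notMem fun x h => by
  have := h.1.2.symm.trans h.2.1
  norm_num at this

open Classical in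
noncomputable def S : Balanced 3 where
  cells := {L1, L2}
  d := 1
  w _ := 1
  poly := by
    simp only [Finset.mem_insert, Finset.mem_singleton, forall_eq_or_imp, forall_eq]
    refine ⟨⟨⟨![0, 1, 0], by simp [L1]⟩, 4, ![![1, 0, 0], ![-1, 0, 0], ![0, 1, 0], ![0, -1, 0]],
      ![0, 0, 1, -1], ?_⟩, ⟨0, by simp [L2]⟩, 4,
      ![![0, 1, 0], ![0, -1, 0], ![0, 0, 1], ![0, 0, -1]], 0, ?_⟩ <;> ext x <;>
    simp [L1, L2, Fin.forall_fin_succ, Fin.sum_univ_three, le_antisymm_iff, and_assoc]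
  face := by
    simp only [Finset.mem_insert, Finset.mem_singleton, forall_eq_or_imp, forall_eq]
    refine ⟨fun τ h1 h2 => .inl (face ?_ h1 h2), fun τ h1 h2 => .inr (face ?_ h1 h2)⟩ <;>
    simp +contextual [L1, L2]
  inter := by
    simp [dis, inter_comm L2, IsExposed.refl, isExposed_empty]
  pure := by
    simp only [Finset.mem_insert, Finset.mem_singleton, forall_eq_or_imp, forall_eq]
    exact ⟨⟨L1, .inl rfl, Subset.rfl, d1⟩, L2, .inr rfl, Subset.rfl, d2⟩
  le := by simp [d1, d2]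
  pos := by simp
  bal := by simp [d1, d2]

noncomputable def T : Balanced 3 where
  cells := {P}
  d := 2
  w _ := 1
  poly := by
    simp only [Finset.mem_singleton, forall_eq]
    refine ⟨⟨0, by simp [P]⟩, 2, ![![0, 0, 1], ![0, 0, -1]], 0, ?_⟩
    ext x
    simp [P, Fin.forall_fin_succ, Fin.sum_univ_three, le_antisymm_iff]
  face := by
    simp only [Finset.mem_singleton, forall_eq]
    refine fun τ h1 h2 => face ?_ h1 h2
    simp +contextual [P]
  inter := by simp [IsExposed.refl]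
  pure := by simp [d3]
  le := by simp [d3]
  pos := by simp
  bal := by simp [d3]

theorem result : ∃ (n : ℕ) (S T : Balanced n), (stable S T).Nonempty ∧
    ∃ x ∈ supp S ∩ supp T, Disjoint (connectedComponentIn (supp S ∩ supp T) x) (stable S T) := by
  refine ⟨3, S, T, ⟨![0, 1, 0], L1, by simp [S], P, by simp [T], ?_, by simp [L1, P]⟩, 0,
    by simp [supp, S, T, L2, P], disjoint_left.2 ?_⟩
  · rw [vs 0 ⊤ _ fun x => ?_]
    · simp
    · refine iff_of_true ⟨![0, 1, x 2], by simp [L1], ![x 0, x 1 - 1, 0], by simp [P], ?_⟩ trivial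
      ext i
      fin_cases i <;> simp
  · rintro y hy ⟨σ, hσ, τ, hτ, h1, h2, -⟩
    obtain rfl : τ = P := by simpa [T] using hτ
    have h3 : σ = L1 ∨ σ = L2 := by simpa [S] using hσ
    rcases h3 with rfl | rfl
    · have h4 := (isPreconnected_connectedComponentIn (x := (0 : E 3))
        (F := supp S ∩ supp T)).intermediate_value (mem_connectedComponentIn
          (by simp [supp, S, T, L2, P])) hy (continuous_apply 1).continuousOn
      obtain ⟨z, hz, h5⟩ := h4 (show (1 / 2 : ℝ) ∈ _ by rw [h2.2]; norm_num)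
      have h6 := (connectedComponentIn_subset _ _ hz).1
      simp only [supp, S, Finset.mem_insert, Finset.mem_singleton, iUnion_iUnion_eq_or_left,
        iUnion_iUnion_eq_left, mem_union, L1, L2, mem_ofPred_eq] at h6 h5
      rcases h6 with h | h <;> linarith [h.1, h.2]
    · have : L2 + P = P := by
        ext x
        refine ⟨?_, fun h => ⟨0, by simp [L2], x, h, by simp⟩⟩
        rintro ⟨a, ha, b, hb, rfl⟩
        simp [P, ha.2, show b 2 = 0 from hb]
      rw [this, d3] at h1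
      norm_num at h1

end Pool.Agent.Results.MP_7d0545_co.Lines
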